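import Pool.Agent.Lib.MP_21db80_an.Final

namespace Pool.Agent.Variants.MP_21db80_an.Q1Plain

open Pool.Agent.Lib.MP_21db80_an

/-- For every element of `Per_4(0)^*` the augmented deformation space is disconnected. -/
theorem result : ∀ (f : Sph → Sph) (c c' : Sph), Per4 f c c' →
    ¬ @IsPreconnected _ (bers (insert (f c') (Set.range fun i : ℕ => f^[i] c)))
      (AD f (Set.range fun i : ℕ => f^[i] c) (insert (f c') (Set.range fun i : ℕ => f^[i] c))) :=
  fun _ _ _ h => per4_main h (Set.subset_insert _ _) (Set.mem_insert _ _)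

end Pool.Agent.Variants.MP_21db80_an.Q1Plain
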